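import Pool.Agent.helper43.DHB.SpecB

set_option autoImplicit false

open Filter Topology MeasureTheory
open scoped commutatorElement

namespace Pool.Agent.helper90.DH

open Pool.Agent.helper64.D2

theorem bNPR (hCLB : bCLB_stmt) (hLAY : bLAY_stmt) : bNPR_stmt := by
  intro q C0 C th kk k w p E hth hSPR hmono hp hCln hCC0 hC hPIn hE hcard
  obtain ⟨hc1, hc2⟩ := hCLB k p hmono
  have h2w : (0 : ℝ) < 2 ^ w := by positivity
  have hu : (0 : ℝ) < 1 / 2 ^ w := by positivity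
  have h16 : (1 : ℝ) / (16 * 2 ^ w) = 1 / 16 * (1 / 2 ^ w) := by ring
  have h16' : (16 : ℝ) / 2 ^ w = 16 * (1 / 2 ^ w) := by ring
  have h4' : (4 : ℝ) / 2 ^ w = 4 * (1 / 2 ^ w) := by ring
  set u : ℝ := 1 / 2 ^ w with hudef
  set cl : ℕ → ℕ := clu p w with hcl
  have hρ : 0 ≤ th * q := by positivity
  -- the hypothesis of the layer cake
  have hcomp : ∀ e ∈ E, ∀ e' ∈ E, e.1 = e'.1 → (cl e.2.1 = cl e'.2.1 ↔ cl e.2.2 = cl e'.2.2) := by
    intro e he e' he' hee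
    obtain ⟨h1, h2, h3, h4⟩ := hE e he
    obtain ⟨h1', h2', h3', h4'⟩ := hE e' he'
    rw [← hee] at h4'
    constructor
    · intro h
      by_contra hcon
      have h5 := hc2 w e.2.2 e'.2.2 hcon
      have h6 := hc1 w e.2.1 e'.2.1 hCln h2 h2' h
      have h7 := (hC e.1 h1 (p e.2.1) (p e'.2.1)).2
      have h8 : p e.2.2 - p e'.2.2 = -(C e.1 (p e.2.1) - p e.2.2) + (C e.1 (p e.2.1) - C e.1 (p e'.2.1)) + (C e.1 (p e'.2.1) - p e'.2.2) := by ring
      rw [h16'] at h5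
      rw [h16] at h6
      rw [h8] at h5
      have h9 := abs_add_le (-(C e.1 (p e.2.1) - p e.2.2) + (C e.1 (p e.2.1) - C e.1 (p e'.2.1))) (C e.1 (p e'.2.1) - p e'.2.2)
      have h10 := abs_add_le (-(C e.1 (p e.2.1) - p e.2.2)) (C e.1 (p e.2.1) - C e.1 (p e'.2.1))
      rw [abs_neg] at h10
      linarith
    · intro h
      by_contra hcon
      have h5 := hc2 w e.2.1 e'.2.1 hcon
      have h6 := hc1 w e.2.2 e'.2.2 hCln h3 h3' h
      have h7 := (hC e.1 h1 (p e.2.1) (p e'.2.1)).1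
      have h8 : C e.1 (p e.2.1) - C e.1 (p e'.2.1) = (C e.1 (p e.2.1) - p e.2.2) + (p e.2.2 - p e'.2.2) + -(C e.1 (p e'.2.1) - p e'.2.2) := by ring
      rw [h16'] at h5
      rw [h16] at h6
      rw [h8] at h7
      have h9 := abs_add_le ((C e.1 (p e.2.1) - p e.2.2) + (p e.2.2 - p e'.2.2)) (-(C e.1 (p e'.2.1) - p e'.2.2))
      have h10 := abs_add_le (C e.1 (p e.2.1) - p e.2.2) (p e.2.2 - p e'.2.2)
      rw [abs_neg] at h9
      linarith
  obtain ⟨t, ht, hlt, hPIn'⟩ := hLAY k cl E (th * q) hρ (fun e he => ⟨(hE e he).2.1, (hE e he).2.2.1⟩) hPIn hcomp hcard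
  set L : Finset ℕ := blv k cl t with hL
  set B : Finset (ℕ × ℕ × ℕ) := bed k cl E t with hB
  -- the elements of the induced set of edges
  have hBe : ∀ e ∈ B, ∃ e₀ ∈ E, e₀.1 = e.1 ∧ cl e₀.2.1 = e.2.1 ∧ cl e₀.2.2 = e.2.2 := by
    intro e he
    rw [hB, bed, Finset.mem_filter, Finset.mem_image] at he
    obtain ⟨⟨e₀, he₀, h1⟩, -⟩ := he
    exact ⟨e₀, he₀, by rw [← h1], by rw [← h1], by rw [← h1]⟩
  have hBL : ∀ e ∈ B, e.2.1 ∈ L ∧ e.2.2 ∈ L := by
    intro e he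
    obtain ⟨e₀, he₀, h1, h2, h3⟩ := hBe e he
    rw [hB, bed, Finset.mem_filter] at he
    obtain ⟨-, h4, h5⟩ := he
    rw [hL, blv, Finset.mem_filter, Finset.mem_filter, Finset.mem_image, Finset.mem_image]
    exact ⟨⟨⟨e₀.2.1, Finset.mem_range.2 (hE e₀ he₀).2.1, h2⟩, h4⟩, ⟨⟨e₀.2.2, Finset.mem_range.2 (hE e₀ he₀).2.2.1, h3⟩, h5⟩⟩
  have hrep : ∀ c ∈ L, ∃ a < k, cl a = c := by
    intro c hc
    rw [hL, blv, Finset.mem_filter, Finset.mem_image] at hc
    obtain ⟨⟨a, ha, h1⟩, -⟩ := hc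
    exact ⟨a, Finset.mem_range.1 ha, h1⟩
  have hBne : B.Nonempty := by
    rw [← Finset.card_pos]
    have h1 : (0 : ℝ) ≤ th * q * (L.card : ℝ) := by positivity
    have h2 : (0 : ℝ) < (B.card : ℝ) := lt_of_le_of_lt h1 hlt
    exact_mod_cast h2
  have hLpos : 1 ≤ L.card := by
    obtain ⟨e, he⟩ := hBne
    exact Finset.card_pos.2 ⟨e.2.1, (hBL e he).1⟩
  -- the number of classes is larger than `kk`
  have hkk : kk < (L.card : ℝ) := by
    by_contra hcon
    push Not at hcon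
    have hS := hSPR L.card hcon
    classical
    let num : ℕ → ℕ := fun c => if h : c ∈ L then (L.equivFin ⟨c, h⟩ : ℕ) else 0
    have hnum : ∀ c (h : c ∈ L), num c = (L.equivFin ⟨c, h⟩ : ℕ) := by
      intro c h
      simp only [num, dif_pos h]
    have hnumlt : ∀ c ∈ L, num c < L.card := by
      intro c h
      rw [hnum c h]
      exact (L.equivFin ⟨c, h⟩).2
    have hnuminj : ∀ c ∈ L, ∀ c' ∈ L, num c = num c' → c = c' := by
      intro c h c' h' heq
      rw [hnum c h, hnum c' h'] at heq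
      have h1 := L.equivFin.injective (Fin.ext heq)
      exact congrArg Subtype.val h1
    choose! rep hrepk hrepc using hrep
    let p' : ℕ → ℝ := fun n => if h : n < L.card then p (rep (L.equivFin.symm ⟨n, h⟩ : ℕ)) else 1 / 2
    have hp'num : ∀ c ∈ L, p' (num c) = p (rep c) := by
      intro c h
      have h1 := hnumlt c h
      simp only [p', dif_pos h1]
      have h2 : (⟨num c, h1⟩ : Fin L.card) = L.equivFin ⟨c, h⟩ := Fin.ext (hnum c h)
      rw [h2, Equiv.symm_apply_apply]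
    have hp'I : ∀ a < L.card, p' a ∈ Set.Icc (1 / 6 : ℝ) (5 / 6) := by
      intro a ha
      simp only [p', dif_pos ha]
      exact hp _ (hrepk _ (L.equivFin.symm ⟨a, ha⟩).2)
    let F : ℕ × ℕ × ℕ → ℕ × ℕ × ℕ := fun e => (e.1, num e.2.1, num e.2.2)
    have hFinj : Set.InjOn F (B : Set (ℕ × ℕ × ℕ)) := by
      intro e he e' he' heq
      have h1 := hBL e he
      have h2 := hBL e' he'
      simp only [F, Prod.mk.injEq] at heq
      obtain ⟨h3, h4, h5⟩ := heq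
      exact Prod.ext h3 (Prod.ext (hnuminj _ h1.1 _ h2.1 h4) (hnuminj _ h1.2 _ h2.2 h5))
    have hcardF : (B.image F).card = B.card := Finset.card_image_of_injOn hFinj
    have hfin := hS p' (B.image F) hp'I (by
      intro e he
      rw [Finset.mem_image] at he
      obtain ⟨e', he', rfl⟩ := he
      obtain ⟨e₀, he₀, h1, h2, h3⟩ := hBe e' he'
      obtain ⟨hL1, hL2⟩ := hBL e' he'
      obtain ⟨g1, g2, g3, g4⟩ := hE e₀ he₀
      have g1' : e'.1 < q := by rw [← h1]; exact g1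
      refine ⟨g1', hnumlt _ hL1, hnumlt _ hL2, ?_⟩
      simp only [F]
      rw [hp'num _ hL1, hp'num _ hL2, h4', ← h1]
      have k1 := hCC0 e₀.1 g1 (p (rep e'.2.1))
      have k2 := (hC e₀.1 g1 (p (rep e'.2.1)) (p e₀.2.1)).2
      have k3 := hc1 w (rep e'.2.1) e₀.2.1 hCln (hrepk _ hL1) g2 (by rw [← hcl, hrepc _ hL1, h2])
      have k4 := hc1 w e₀.2.2 (rep e'.2.2) hCln g3 (hrepk _ hL2) (by rw [← hcl, hrepc _ hL2, h3])
      rw [h16] at k3 k4
      have k5 : C0 e₀.1 (p (rep e'.2.1)) - p (rep e'.2.2) = -(C e₀.1 (p (rep e'.2.1)) - C0 e₀.1 (p (rep e'.2.1))) + (C e₀.1 (p (rep e'.2.1)) - C e₀.1 (p e₀.2.1)) + (C e₀.1 (p e₀.2.1) - p e₀.2.2) + (p e₀.2.2 - p (rep e'.2.2)) := by ring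
      rw [k5]
      have k6 := abs_add_le (-(C e₀.1 (p (rep e'.2.1)) - C0 e₀.1 (p (rep e'.2.1))) + (C e₀.1 (p (rep e'.2.1)) - C e₀.1 (p e₀.2.1)) + (C e₀.1 (p e₀.2.1) - p e₀.2.2)) (p e₀.2.2 - p (rep e'.2.2))
      have k7 := abs_add_le (-(C e₀.1 (p (rep e'.2.1)) - C0 e₀.1 (p (rep e'.2.1))) + (C e₀.1 (p (rep e'.2.1)) - C e₀.1 (p e₀.2.1))) (C e₀.1 (p e₀.2.1) - p e₀.2.2)
      have k8 := abs_add_le (-(C e₀.1 (p (rep e'.2.1)) - C0 e₀.1 (p (rep e'.2.1)))) (C e₀.1 (p (rep e'.2.1)) - C e₀.1 (p e₀.2.1))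
      rw [abs_neg] at k8
      linarith) (by
      intro e he e' he' h1 h2
      rw [Finset.mem_image] at he he'
      obtain ⟨d, hd, rfl⟩ := he
      obtain ⟨d', hd', rfl⟩ := he'
      have h3 : d.1 = d'.1 := h1
      have h4 : d = d' := by
        refine hPIn' d hd d' hd' h3 ?_
        rcases h2 with h2 | h2
        · left
          exact hnuminj _ (hBL d hd).1 _ (hBL d' hd').1 h2
        · right
          exact hnuminj _ (hBL d hd).2 _ (hBL d' hd').2 h2
      rw [h4])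
    rw [hcardF] at hfin
    linarith
  have hmax : max 1 kk ≤ (L.card : ℝ) := max_le (by exact_mod_cast hLpos) hkk.le
  have hbus : B.card ≤ (bus p w E).card := by
    classical
    have hinj : Set.InjOn (fun e : ℕ × ℕ × ℕ => (e.1, e.2.1)) (B : Set (ℕ × ℕ × ℕ)) := by
      intro e he e' he' heq
      simp only [Prod.mk.injEq] at heq
      exact hPIn' e he e' he' heq.1 (Or.inl heq.2)
    rw [← Finset.card_image_of_injOn hinj]
    apply Finset.card_le_card
    intro x hx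
    rw [Finset.mem_image] at hx
    obtain ⟨e, he, rfl⟩ := hx
    obtain ⟨e₀, he₀, h1, h2, h3⟩ := hBe e he
    unfold bus
    rw [Finset.mem_image]
    exact ⟨e₀, he₀, by rw [← h1, ← h2]⟩
  calc th * q * max 1 kk ≤ th * q * (L.card : ℝ) := mul_le_mul_of_nonneg_left hmax hρ
    _ < (B.card : ℝ) := hlt
    _ ≤ ((bus p w E).card : ℝ) := by exact_mod_cast hbus

end Pool.Agent.helper90.DH
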